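import Pool.Agent.Helper96_MWV.Comp
import Pool.Agent.Helper96_MWV.FilR
import Pool.Agent.Helper11_MWD.FIN3

/-!
# Thin runs over `x²y² ≈ y²x²`, `xtxsx ≈ x^(n+1)tx^(n+1)sx^(n+1)` (MP_23468a_al, squad MWT)

Proof: note 4088.  Separators `3 r + 2`; light letters `3 d + 1`, `d < m`: once in the main block `0`
and once in its place, a block which is different from `0`; local letters `3 j`, `2 ≤ j`, in the main
block; the thin letter of the small words is `0`, the second thin letter of NES is `3`.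
-/

set_option autoImplicit false

namespace Pool.Agent.MWT

open Pool.Agent.Helper14_MV Pool.Agent.Helper2_MV Pool.Agent.MVD

/-- `x^k` -/
abbrev P (k x : ℕ) : List ℕ := List.replicate k x

/-- all letters to the power `n+1` -/
abbrev hp (n : ℕ) (w : List ℕ) : List ℕ := Helper96_MWV.hp n w

/-- the letters of `S` to the power `n+1` -/
abbrev hS (n : ℕ) (S w : List ℕ) : List ℕ := Helper96_MWV.hS n S w

/-- number of different letters -/
def nd (c : List ℕ) : ℕ := c.toFinset.card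

/-- block `0` is `L`, block `r` is `pl r` -/
def Bp (R : List ℕ) (pl : ℕ → List ℕ) (L : List ℕ) : List ℕ :=
  Bw R (fun r => if r = 0 then L else pl r)

/-- block `d + 1` is the place of the light letter `3 d + 1` -/
def pl0 (r : ℕ) : List ℕ := [3 * (r - 1) + 1]

/-- the places: every light letter `3 d + 1`, `d < m`, has exactly one place -/
structure Pl (m : ℕ) (R : List ℕ) (pl : ℕ → List ℕ) : Prop where
  nd : R.Nodup
  z : 0 ∈ R
  ex : ∀ d < m, ∃ r ∈ R, r ≠ 0 ∧ pl r = [3 * d + 1] ∧ ∀ s ∈ R, s ≠ 0 → s ≠ r → 3 * d + 1 ∉ pl s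
  em : ∀ r ∈ R, r ≠ 0 → pl r = [] ∨ ∃ d < m, pl r = [3 * d + 1]

/-- canonical runs: light letters `3 d + 1`, `d < m`, once; local letters `3 j`, `2 ≤ j`, in one
block of `n + 1` letters -/
structure Cn (n m : ℕ) (c : List ℕ) : Prop where
  li : ∀ d < m, c.count (3 * d + 1) = 1
  lo : ∀ a ∈ c, (∃ d < m, a = 3 * d + 1) ∨ (a % 3 = 0 ∧ 6 ≤ a)
  bl : ∀ a ∈ c, a % 3 = 0 → ∃ A C, c = A ++ (List.replicate (n + 1) a ++ C) ∧ a ∉ A ∧ a ∉ C

/-- the thin run `x c x` is thick -/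
def Th (n : ℕ) (β : FIC) (R : List ℕ) (pl : ℕ → List ℕ) (c : List ℕ) : Prop :=
  RR β (Bp R pl (0 :: (c ++ [0]))) (Bp R pl (P (n + 1) 0 ++ (c ++ P (n + 1) 0)))

/-- the world -/
structure Wo (n : ℕ) (β : FIC) : Prop where
  hn : 1 ≤ n
  ap : RR β [0, 0] (List.replicate (n + 2) 0)
  i3 : Iso3 β
  md : ModF β
  hv : ∀ (w : List ℕ) (a : ℕ), 3 ≤ w.count a → RR β w (Helper96_MWV.hv n a w)
  cm : Helper96_MWV.CM n β
  sr : Helper96_MWV.SR β
  sl : Helper96_MWV.SL β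

/-- the situation in the induction step (proof by contradiction): thin runs with less light letters are
thick (`lt`), canonical runs with less letters are thick (`h2`), heavy fill (`fl`) -/
structure St (n : ℕ) (β : FIC) (m : ℕ) (R : List ℕ) (pl : ℕ → List ℕ) (c : List ℕ) : Prop where
  wo : Wo n β
  lt : ∀ m' < m, Helper96_MWV.LfBm n m' β
  h2 : ∀ c' : List ℕ, Cn n m c' → nd c' < nd c → ∀ (R' : List ℕ) (pl' : ℕ → List ℕ),
    Pl m R' pl' → Th n β R' pl' c'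
  fl : Helper96_MWV.Fil n β
  cn : Cn n m c
  m1 : 1 ≤ m
  k2 : 2 ≤ nd c
  pc : Pl m R pl
  no : ¬ Th n β R pl c

/-- FUN. In every word of the class of the thin run the two letters `0` are in the main block and all
letters of `c` are between them.  PROOF.  (fu) of note 4088, with `lt`, `h2` (message 67974 of
helper96). -/
def FunStmt : Prop := ∀ (n : ℕ) (β : FIC) (m : ℕ) (R : List ℕ) (pl : ℕ → List ℕ) (c : List ℕ)
  (B : ℕ → List ℕ) (e : List ℕ), St n β m R pl c → (∀ r, SFr (B r)) → SFr e →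
    RR β (Bp R pl (0 :: (c ++ [0]))) (Bw R B ++ e) →
      (∃ p U q : List ℕ, B 0 = p ++ 0 :: (U ++ 0 :: q) ∧ 0 ∉ p ∧ 0 ∉ U ∧ 0 ∉ q ∧
        (∀ a ∈ c, a ∈ U) ∧ ∀ a ∈ p ++ (U ++ q), a ∈ c) ∧
      (∀ r ∈ R, r ≠ 0 → 0 ∉ B r) ∧ 0 ∉ e

/-- without the letter `e` -/
def dl (e : ℕ) (w : List ℕ) : List ℕ := w.filter (fun a => decide (a ≠ e))

/-- NES. A thin letter `f = 3` never encloses the thin letter `e = 0`, if `e` encloses `c` and `f` less
letters in the words of the classes.  PROOF.  (NEST) of note 4088. -/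
def NesStmt : Prop := ∀ (n : ℕ) (β : FIC) (m : ℕ) (R : List ℕ) (pl : ℕ → List ℕ)
  (c A C A2 : List ℕ) (B : ℕ → List ℕ) (e : List ℕ), St n β m R pl c → c = A ++ (C ++ A2) →
    nd C < nd c → (∀ r, SFr (B r)) → SFr e →
    RR β (Bp R pl (0 :: (c ++ [0]))) (Bw R (fun r => dl 3 (B r)) ++ dl 3 e) →
    RR β (Bp R pl (A ++ 3 :: (C ++ 3 :: A2))) (Bw R (fun r => dl 0 (B r)) ++ dl 0 e) →
    (∀ r ∈ R, r ≠ 0 → 3 ∉ B r) → 3 ∉ e →
      ∀ p p' U q' q : List ℕ, B 0 = p ++ 3 :: (p' ++ 0 :: (U ++ 0 :: (q' ++ 3 :: q))) →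
        3 ∉ p → 3 ∉ p' → 3 ∉ U → 3 ∉ q' → 3 ∉ q → False

end Pool.Agent.MWT
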